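import Pool.Agent.Lib.MP_f91407_an.Mg.G010

set_option autoImplicit false

/-! # D4b: lower bound for `sin (π μ)` over a half integer -/

namespace Pool.Agent.LP

open Complex MeasureTheory

variable {n : ℕ} {b : Fin n → ℝ} {p : ℝ}

theorem D4b_half (N : ℕ) : ((N : ℂ) + 1 / 2).re = (N : ℝ) + 1 / 2 := by
  have h : ((N : ℂ) + 1 / 2) = (((N : ℝ) + 1 / 2 : ℝ) : ℂ) := by
    push_cast
    ring
  rw [h, ofReal_re]

theorem le_of_sq_le_sq_aux {a b : ℝ} (_ : 0 ≤ a) (hb : 0 ≤ b) (h : a ^ 2 ≤ b ^ 2) : a ≤ b :=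
  le_of_sq_le_sq h hb

theorem D4b_re (h : Big p b) {x y : ℝ} (hy : |y| ≤ 0.05) :
    |(mu b ((x : ℂ) + (y : ℂ) * I)).re - (mu b (x : ℂ)).re| ≤ 1.001 * W b x * y ^ 2 := by
  obtain ⟨z, hz⟩ : ∃ z : ℂ, z = (x : ℂ) + (y : ℂ) * I := ⟨_, rfl⟩
  have hre : z.re = x := by rw [hz]; simp
  have him : z.im = y := by rw [hz]; simp
  rw [← hz]
  have hconv : Convex ℝ {w : ℂ | w.re = x ∧ |w.im| ≤ |y|} := by
    have e : {w : ℂ | w.re = x ∧ |w.im| ≤ |y|} = {w : ℂ | w.re ∈ Set.Icc x x} ∩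
        {w : ℂ | w.im ∈ Set.Icc (-|y|) |y|} := by
      ext w
      simp only [Set.mem_ofPred_eq, Set.mem_inter_iff, Set.mem_Icc, abs_le]
      constructor
      · rintro ⟨h1, h2⟩
        exact ⟨⟨h1.ge, h1.le⟩, h2⟩
      · rintro ⟨h1, h2⟩
        exact ⟨le_antisymm h1.2 h1.1, h2⟩
    rw [e]
    exact ((convex_Icc _ _).is_linear_preimage
        (IsLinearMap.mk (fun a b => add_re a b) (fun c a => by simp))).inter
      ((convex_Icc _ _).is_linear_preimage
        (IsLinearMap.mk (fun a b => add_im a b) (fun c a => by simp)))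
  have hx : ((x : ℝ) : ℂ) ∈ {w : ℂ | w.re = x ∧ |w.im| ≤ |y|} := ⟨ofReal_re x, by
    rw [ofReal_im, abs_zero]; exact abs_nonneg y⟩
  have hzm : z ∈ {w : ℂ | w.re = x ∧ |w.im| ≤ |y|} := ⟨hre, by rw [him]⟩
  have hpi : ∀ w ∈ {w : ℂ | w.re = x ∧ |w.im| ≤ |y|}, |w.im| < Real.pi := fun w hw => by
    have := Real.pi_gt_three
    have := hw.2
    linarith
  have hd : ∀ w ∈ {w : ℂ | w.re = x ∧ |w.im| ≤ |y|}, ‖w - (x : ℂ)‖ ≤ |y| := fun w hw => by
    have e1 : w - (x : ℂ) = (w.im : ℂ) * I := by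
      apply Complex.ext
      · simp [hw.1]
      · simp
    rw [e1, norm_mul, norm_I, mul_one, norm_real, Real.norm_eq_abs]
    exact hw.2
  have hv : ∀ w ∈ {w : ℂ | w.re = x ∧ |w.im| ≤ |y|},
      ‖vv b w - (W b x : ℂ)‖ ≤ 1.001 * W b x * |y| := by
    intro w hw
    have h1 := hconv.norm_image_sub_le_of_norm_hasDerivWithin_le
      (fun w hw => (hasDerivAt_vv h.ok (hpi w hw)).hasDerivWithinAt)
      (C := 1.001 * W b x) (fun w hw => by
        have := (norm_vv_le5 h.ok (z := w) (hw.2.trans hy)).2.1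
        rwa [hw.1] at this) hx hw
    rw [vv_ofReal h.ok] at h1
    exact h1.trans (mul_le_mul_of_nonneg_left (hd w hw) (by
      have := W_nonneg h.ok x
      positivity))
  have h2 := hconv.norm_image_sub_le_of_norm_hasDerivWithin_le
    (f := fun w => mu b w - (W b x : ℂ) * w)
    (fun w hw => ((hasDerivAt_mu h.ok (hpi w hw)).sub
      ((hasDerivAt_id w).const_mul (W b x : ℂ))).hasDerivWithinAt)
    (C := 1.001 * W b x * |y|) (fun w hw => by
      rw [mul_one]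
      exact hv w hw) hx hzm
  have h3 := (abs_re_le_norm _).trans h2
  have h4 : (mu b z - (W b x : ℂ) * z - (mu b (x : ℂ) - (W b x : ℂ) * (x : ℂ))).re
      = (mu b z).re - (mu b (x : ℂ)).re := by
    simp [hre]
  rw [h4] at h3
  refine h3.trans ((mul_le_mul_of_nonneg_left (hd z hzm) (by
      have := W_nonneg h.ok x
      positivity)).trans (le_of_eq ?_))
  rw [← sq_abs y]
  ring

theorem D4b_im (h : Big p b) {x y : ℝ} (hy : |y| ≤ 0.05) :
    0.998 * W b x * |y| ≤ |(mu b ((x : ℂ) + (y : ℂ) * I)).im| := by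
  have key : ∀ y : ℝ, 0 ≤ y → y ≤ 0.05 →
      0.998 * W b x * y ≤ (mu b ((x : ℂ) + (y : ℂ) * I)).im := by
    intro y hy0 hy
    have hre : ((x : ℂ) + (y : ℂ) * I).re = x := by simp
    have him : ((x : ℂ) + (y : ℂ) * I).im = y := by simp
    have h1 := im_mu_ge h.ok (z := (x : ℂ) + (y : ℂ) * I) (by rw [him]; exact hy0) (by
      rw [him]
      have := Real.pi_gt_three
      linarith)
    rw [hre, him] at h1
    refine le_trans ?_ h1
    have h2 : 0.998 * y ≤ Real.sin y := by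
      rcases hy0.eq_or_lt with h0 | h0
      · rw [← h0, mul_zero, Real.sin_zero]
      · have h3 := Real.sin_gt_sub_cube h0
        have h4 : y ^ 3 ≤ 0.0025 * y := by nlinarith [mul_le_mul_of_nonneg_left hy h0.le]
        linarith
    have h3 := mul_le_mul_of_nonneg_left h2 (W_nonneg h.ok x)
    linarith
  rcases le_total 0 y with h0 | h0
  · rw [abs_of_nonneg h0] at hy ⊢
    exact (key y h0 hy).trans (le_abs_self _)
  · rw [abs_of_nonpos h0] at hy ⊢
    have h1 := key (-y) (by linarith) hy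
    have h2 : ((x : ℂ) + ((-y : ℝ) : ℂ) * I) = (starRingEnd ℂ) ((x : ℂ) + (y : ℂ) * I) := by
      apply Complex.ext <;> simp
    rw [h2, mu_conj, conj_im] at h1
    exact h1.trans (neg_le_abs _)

/-- lower bound of the sine. PROOF. Let `μ(x + iy) = N + 1/2 + δ + i η` (`δ, η` real). `|δ| ≤ |∫_0^y Im v| ≤ 1.001 W y²/2`,
`|η| ≥ 0.998 W |y|` (`(d/dy) Im μ = Re v ≥ 0.998 W`). `|sin(π μ)|² = cos²(πδ) + sinh²(πη) ≥ 1 - π²δ² + sinh²(πη)` and
`π|δ| ≤ 0.51 |y| π |η| ≤ 0.026 π|η|`, `(πη)² ≤ sinh²(πη)`: `≥ cosh²(πη) - 0.001 sinh²(πη) ≥ 0.999 cosh²(πη) ≥ 0.24 e^{2π|η|}`; root `≥ 0.489 e^{π|η|}`. -/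
theorem norm_Dk_ge (h : Big p b) {x y : ℝ} (hx : |x| ≤ 0.155) (hy : |y| ≤ 0.05) (N : ℕ)
    (hN : mu b (x : ℂ) = (N : ℂ) + 1 / 2) :
    0.489 * Real.exp (Real.pi * (0.998 * W b x * |y|)) ≤ ‖Dk b (x + y * I)‖ := by
  obtain ⟨z, hz⟩ : ∃ z : ℂ, z = (x : ℂ) + (y : ℂ) * I := ⟨_, rfl⟩
  have hre : z.re = x := by rw [hz]; simp
  have him : z.im = y := by rw [hz]; simp
  rw [← hz]
  have hW : 0 < W b x := W_pos h.ok h.n_pos x
  have hpi := Real.pi_pos
  obtain ⟨a, ha⟩ : ∃ a : ℝ, a = (mu b z).re := ⟨_, rfl⟩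
  obtain ⟨c, hc⟩ : ∃ c : ℝ, c = (mu b z).im := ⟨_, rfl⟩
  have hmu : mu b z = (a : ℂ) + (c : ℂ) * I := by
    rw [ha, hc, re_add_im]
  -- the real part
  have hδ : |a - ((N : ℝ) + 1 / 2)| ≤ 1.001 * W b x * y ^ 2 := by
    have := D4b_re h (x := x) (y := y) hy
    rw [← hz, ← ha, hN, D4b_half] at this
    exact this
  -- the imaginary part
  have hη : 0.998 * W b x * |y| ≤ |c| := by
    have := D4b_im h (x := x) (y := y) hy
    rw [← hz, ← hc] at this
    exact this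
  have hcos : |Real.cos (Real.pi * a)| ≤ Real.pi * (1.001 * W b x * y ^ 2) := by
    have h1 := Real.abs_cos_sub_cos_le (Real.pi * a) (Real.pi * ((N : ℝ) + 1 / 2))
    have h2 : Real.cos (Real.pi * ((N : ℝ) + 1 / 2)) = 0 := by
      have : Real.pi * ((N : ℝ) + 1 / 2) = Real.pi / 2 + N * Real.pi := by ring
      rw [this, Real.cos_add_nat_mul_pi, Real.cos_pi_div_two, mul_zero]
    rw [h2, sub_zero, ← mul_sub, abs_mul, abs_of_pos hpi] at h1
    exact h1.trans (mul_le_mul_of_nonneg_left hδ hpi.le)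
  have hsq : ‖Dk b z‖ ^ 2 = Real.cosh (Real.pi * c) ^ 2 - Real.cos (Real.pi * a) ^ 2 := by
    have e1 : Dk b z = Complex.sin ((((Real.pi * a : ℝ)) : ℂ) + (((Real.pi * c : ℝ)) : ℂ) * I) := by
      unfold Dk
      rw [hmu]
      congr 1
      push_cast
      ring
    rw [e1, Complex.sin_add_mul_I, ← Complex.ofReal_sin, ← Complex.ofReal_cos,
      ← Complex.ofReal_cosh, ← Complex.ofReal_sinh, ← Complex.ofReal_mul, ← Complex.ofReal_mul,
      ← Complex.normSq_eq_norm_sq, Complex.normSq_add_mul_I]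
    have e2 := Real.sin_sq_add_cos_sq (Real.pi * a)
    have e3 := Real.cosh_sq (Real.pi * c)
    have e4 : Real.sinh (Real.pi * c) ^ 2 = Real.cosh (Real.pi * c) ^ 2 - 1 := by linarith
    have e5 : Real.sin (Real.pi * a) ^ 2 = 1 - Real.cos (Real.pi * a) ^ 2 := by linarith
    rw [mul_pow, mul_pow, e4, e5]
    ring
  obtain ⟨t, ht⟩ : ∃ t : ℝ, t = Real.pi * |c| := ⟨_, rfl⟩
  have ht0 : 0 ≤ t := by
    rw [ht]
    positivity
  have hcosh : Real.cosh (Real.pi * c) = Real.cosh t := by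
    rw [ht, ← Real.cosh_abs (Real.pi * c), abs_mul, abs_of_pos hpi]
  have hsmall : |Real.cos (Real.pi * a)| ≤ 0.0503 * t := by
    refine hcos.trans ?_
    have e1 : y ^ 2 = |y| * |y| := by rw [← sq_abs]; ring
    have e2 : |y| * |y| ≤ 0.05 * |y| := mul_le_mul_of_nonneg_right hy (abs_nonneg y)
    have e3 : 1.001 * W b x * y ^ 2 ≤ 0.0503 * |c| := by
      rw [e1]
      have e4 : W b x * (|y| * |y|) ≤ W b x * (0.05 * |y|) := mul_le_mul_of_nonneg_left e2 hW.le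
      nlinarith
    have e5 := mul_le_mul_of_nonneg_left e3 hpi.le
    rw [ht]
    linarith
  have hst : t ≤ Real.sinh t := Real.self_le_sinh_iff.2 ht0
  have hsc : Real.sinh t < Real.cosh t := Real.sinh_lt_cosh t
  have hcexp : Real.exp t / 2 ≤ Real.cosh t := by
    rw [Real.cosh_eq]
    have := Real.exp_pos (-t)
    linarith
  have hcos2 : Real.cos (Real.pi * a) ^ 2 ≤ 0.0026 * Real.cosh t ^ 2 := by
    have e1 : |Real.cos (Real.pi * a)| ≤ 0.0503 * Real.cosh t := by linarith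
    have e2 := mul_self_le_mul_self (abs_nonneg _) e1
    rw [abs_mul_abs_self] at e2
    nlinarith [sq_nonneg (Real.cosh t)]
  have hE : Real.exp (Real.pi * (0.998 * W b x * |y|)) ≤ Real.exp t := by
    rw [Real.exp_le_exp, ht]
    exact mul_le_mul_of_nonneg_left hη hpi.le
  have hfin : 0.489 * Real.exp t ≤ ‖Dk b z‖ := by
    refine le_of_sq_le_sq_aux (by positivity) (norm_nonneg _) ?_
    rw [hsq, hcosh]
    have e1 := mul_self_le_mul_self (by positivity : 0 ≤ Real.exp t / 2) hcexp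
    nlinarith [sq_nonneg (Real.exp t)]
  linarith

end Pool.Agent.LP
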