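import Pool.Agent.Lib.MP_f91407_an.Mg.G019

set_option autoImplicit false

/-! # E4c: the weighted integral over the top side -/

namespace Pool.Agent.LP

open Complex MeasureTheory

private theorem E4c_int {f1 f2 f3 f4 : ℝ → ℝ} (h1 : Integrable f1) (h2 : Integrable f2)
    (h3 : Integrable f3) (h4 : Integrable f4) (c1 c2 c3 c4 : ℝ) :
    Integrable fun s => c1 * f1 s + c2 * f2 s + c3 * f3 s + c4 * f4 s :=
  (((h1.const_mul c1).add (h2.const_mul c2)).add (h3.const_mul c3)).add (h4.const_mul c4)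

private theorem E4c_int4 {f1 f2 f3 f4 : ℝ → ℝ} (h1 : Integrable f1) (h2 : Integrable f2)
    (h3 : Integrable f3) (h4 : Integrable f4) (c1 c2 c3 c4 : ℝ) :
    ∫ s, (c1 * f1 s + c2 * f2 s + c3 * f3 s + c4 * f4 s) =
      c1 * (∫ s, f1 s) + c2 * (∫ s, f2 s) + c3 * (∫ s, f3 s) + c4 * ∫ s, f4 s := by
  have e3 : Integrable fun s => c1 * f1 s + c2 * f2 s + c3 * f3 s :=
    ((h1.const_mul c1).add (h2.const_mul c2)).add (h3.const_mul c3)
  have e2 : Integrable fun s => c1 * f1 s + c2 * f2 s := (h1.const_mul c1).add (h2.const_mul c2)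
  rw [integral_add e3 (h4.const_mul c4), integral_add e2 (h3.const_mul c3),
    integral_add (h1.const_mul c1) (h2.const_mul c2), integral_const_mul, integral_const_mul,
    integral_const_mul, integral_const_mul]

private theorem E4c_re (Ss lam : ℂ) (s : ℝ) : (-(Ss * s ^ 2 / 2) - lam * s).re =
    -(Ss.re * s ^ 2 / 2) - lam.re * s := by
  have h1 : -(Ss * (s : ℂ) ^ 2 / 2) - lam * s =
      Ss * ((-(s ^ 2 / 2) : ℝ) : ℂ) + lam * ((-s : ℝ) : ℂ) := by
    push_cast
    ring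
  rw [h1, Complex.add_re, Complex.re_mul_ofReal, Complex.re_mul_ofReal]
  ring

/-- PROOF. `I₀ (m0 - λ) = ∫_ℝ exp(-Ss s²/2 - λ s)(m0 + Ss s) ds` (`I0_first`). Difference of the integrals
`= ∫_{s1}^{s2} (exp(..+r) e - exp(..))(m0 + Ss s) + ∫_{s1}^{s2} exp(.. + r) e m - ∫_{outside} exp(..)(m0 + Ss s)`. With `‖m0‖ ≤ 1.026 π S`, `‖Ss‖ ≤ 1.05 S`:
first: `≤ 1.026 π S (1.0001 * 0.17 + 0.0001 * 1.344) B + 1.05 S (1.0001 * 0.52 + 0.0001 * ∫|s| q/B) B` (`J4_le`; `|s| ≤ (1 + s²)/2`, so `∫|s| q ≤ (1.344 + 5)/2 B ≤ 3.2 B`);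
second: `‖exp(..+r) e‖ ≤ 1.0001 q`, `≤ 1.0001 * 0.0092 S * 5 B` (`J2_le`); third: `≤ 1.05 π S * 0.016 B` (`1.026 π + 1.05 |s| ≤ 1.05π(1 + |s|)`).
Sum divided by `π S B`: `0.1748 + 0.1740 + 0.0147 + 0.0168 ≤ 0.381`. -/
theorem top_Z1 {S : ℝ} {Ss lam m0 : ℂ} {s1 s2 : ℝ} {r e m : ℝ → ℂ}
    (h : TopData S Ss lam m0 s1 s2 r e m) :
    ‖(∫ s in s1..s2, exp (-(Ss * s ^ 2 / 2) - lam * s + r s) * e s * (m0 + Ss * s + m s)) -
        I0 Ss lam * (m0 - lam)‖ ≤ 0.45 * (Real.pi * S) * ‖I0 Ss lam‖ := by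
  have hS := h.hS
  have hS0 : 0 < S := by linarith
  have hpi := Real.pi_pos
  have hpi1 : 3.14 < Real.pi := Real.pi_gt_d2
  have hSr : 0 < Ss.re := by
    have := h.hSr
    nlinarith
  obtain ⟨a, ha⟩ : ∃ a, a = lam.re := ⟨_, rfl⟩
  have hal : |a| ≤ 0.713 := by rw [ha]; exact h.hl1
  obtain ⟨B, hB⟩ : ∃ B, B = 0.975 * Real.sqrt (2 * Real.pi / S) *
    Real.exp ((0.949 * a ^ 2 - 0.0722) / (2 * S)) := ⟨_, rfl⟩
  have hB0 : 0 ≤ B := by rw [hB]; positivity
  have hBI : B ≤ ‖I0 Ss lam‖ := by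
    rw [hB, ha]
    exact I0_ge S hS Ss lam h.hSs h.hSr h.hl2
  have j2 := J2_le S a hS hal
  have j3 := J3_le S a hS hal
  have j4 := J4_le S a hS hal
  have jt := tail_le S a hS hal
  have j0 := mass_le S a hS hal
  rw [← hB] at j2 j3 j4 jt j0
  have hk : 0 < 0.8122 * S := by positivity
  have hq : ∀ s : ℝ, -(0.8122 * S / 2 * s ^ 2) - a * s = -(0.4061 * S * s ^ 2) - a * s := by
    intro s
    ring
  have jm : ∫ s : ℝ, Real.exp (-(0.4061 * S * s ^ 2) - a * s) ≤ 1.344 * B := by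
    have h1 := gl_zero (0.8122 * S) a hk
    simp only [hq] at h1
    rw [h1]
    exact j0
  have hI : ∀ j : ℕ, Integrable fun s : ℝ => |s| ^ j * Real.exp (-(0.4061 * S * s ^ 2) - a * s) := by
    intro j
    have h1 := (gl_integrable (0.8122 * S) a hk j).norm
    refine h1.congr (Filter.Eventually.of_forall fun s => ?_)
    change ‖s ^ j * Real.exp (-(0.8122 * S / 2 * s ^ 2) - a * s)‖ = _
    rw [norm_mul, norm_pow, Real.norm_eq_abs, Real.norm_of_nonneg (Real.exp_pos _).le, hq]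
  have i0 : Integrable fun s : ℝ => Real.exp (-(0.4061 * S * s ^ 2) - a * s) := by
    refine (hI 0).congr (Filter.Eventually.of_forall fun s => ?_)
    change |s| ^ 0 * _ = _
    rw [pow_zero, one_mul]
  have i2 : Integrable fun s : ℝ => s ^ 2 * Real.exp (-(0.4061 * S * s ^ 2) - a * s) := by
    refine (hI 2).congr (Filter.Eventually.of_forall fun s => ?_)
    change |s| ^ 2 * _ = _
    rw [sq_abs]
  have i3 : Integrable fun s : ℝ => (0.0061 * S * |s| ^ 3 + 0.0215 * s ^ 2) *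
      Real.exp (-(0.4061 * S * s ^ 2) - a * s) := by
    refine (((hI 3).const_mul (0.0061 * S)).add ((hI 2).const_mul 0.0215)).congr
      (Filter.Eventually.of_forall fun s => ?_)
    change 0.0061 * S * (|s| ^ 3 * _) + 0.0215 * (|s| ^ 2 * _) = _
    rw [sq_abs]
    ring
  have i4 : Integrable fun s : ℝ => |s| * (0.0061 * S * |s| ^ 3 + 0.0215 * s ^ 2) *
      Real.exp (-(0.4061 * S * s ^ 2) - a * s) := by
    refine (((hI 4).const_mul (0.0061 * S)).add ((hI 3).const_mul 0.0215)).congr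
      (Filter.Eventually.of_forall fun s => ?_)
    have key : ∀ X : ℝ, 0.0061 * S * (|s| ^ 4 * X) + 0.0215 * (|s| ^ 3 * X) =
        |s| * (0.0061 * S * |s| ^ 3 + 0.0215 * s ^ 2) * X := by
      intro X
      have := sq_abs s
      linear_combination 0.0215 * |s| * X * this
    exact key _
  -- the Gaussian part
  have hE : ∀ s : ℝ, ‖exp (-(Ss * s ^ 2 / 2) - lam * s)‖ ≤
      Real.exp (-(0.499 * S * s ^ 2) - a * s) := by
    intro s
    rw [Complex.norm_exp, E4c_re, ← ha]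
    apply Real.exp_le_exp.2
    have := h.hSr
    nlinarith [sq_nonneg s]
  have hE0 : Integrable fun s : ℝ => exp (-(Ss * s ^ 2 / 2) - lam * s) := by
    refine (I0_integrable Ss lam hSr 0).congr (Filter.Eventually.of_forall fun s => ?_)
    change (s : ℂ) ^ 0 * _ = _
    rw [pow_zero, one_mul]
  have hE1 : Integrable fun s : ℝ => (s : ℂ) * exp (-(Ss * s ^ 2 / 2) - lam * s) := by
    refine (I0_integrable Ss lam hSr 1).congr (Filter.Eventually.of_forall fun s => ?_)
    change (s : ℂ) ^ 1 * _ = _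
    rw [pow_one]
  have hEM : Integrable fun s : ℝ => exp (-(Ss * s ^ 2 / 2) - lam * s) * (m0 + Ss * s) := by
    refine ((hE0.const_mul m0).add (hE1.const_mul Ss)).congr
      (Filter.Eventually.of_forall fun s => ?_)
    change m0 * _ + Ss * ((s : ℂ) * _) = _
    ring
  have hI0 : ∫ s : ℝ, exp (-(Ss * s ^ 2 / 2) - lam * s) * (m0 + Ss * s) =
      I0 Ss lam * (m0 - lam) := by
    have h1 : (fun s : ℝ => exp (-(Ss * s ^ 2 / 2) - lam * s) * (m0 + Ss * s)) = fun s : ℝ =>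
        m0 * exp (-(Ss * s ^ 2 / 2) - lam * s) +
          Ss * ((s : ℂ) * exp (-(Ss * s ^ 2 / 2) - lam * s)) := by
      funext s
      ring
    rw [h1, integral_add (hE0.const_mul m0) (hE1.const_mul Ss), integral_const_mul,
      integral_const_mul, I0_first Ss lam hSr]
    have h2 : Ss ≠ 0 := by
      rintro rfl
      simp at hSr
    change m0 * I0 Ss lam + _ = _
    field_simp
    ring
  -- bounds of the data
  have hm0 : ‖m0‖ ≤ 1.026 * (Real.pi * S) := by
    have h1 : ‖Real.pi * (S : ℂ) * I‖ = Real.pi * S := by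
      rw [norm_mul, norm_mul, Complex.norm_real, Complex.norm_real, Complex.norm_I, mul_one,
        Real.norm_of_nonneg hpi.le, Real.norm_of_nonneg hS0.le]
    have h2 : m0 = (m0 - Real.pi * (S : ℂ) * I) + Real.pi * (S : ℂ) * I := by ring
    have h3 := norm_add_le (m0 - Real.pi * (S : ℂ) * I) (Real.pi * (S : ℂ) * I)
    rw [← h2, h1] at h3
    have := h.hm0
    linarith
  have hSs : ‖Ss‖ ≤ 1.05 * S := by
    have h1 : ‖(S : ℂ)‖ = S := by
      rw [Complex.norm_real, Real.norm_of_nonneg hS0.le]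
    have h3 := norm_add_le (Ss - (S : ℂ)) (S : ℂ)
    rw [sub_add_cancel, h1] at h3
    have := h.hSs
    linarith
  have hM : ∀ s : ℝ, ‖m0 + Ss * s‖ ≤ 1.026 * (Real.pi * S) + 1.05 * S * |s| := by
    intro s
    refine (norm_add_le _ _).trans (add_le_add hm0 ?_)
    rw [norm_mul, Complex.norm_real, Real.norm_eq_abs]
    exact mul_le_mul_of_nonneg_right hSs (abs_nonneg s)
  have hF : ∀ s : ℝ, |s| ≤ 9.8 → ‖exp (-(Ss * s ^ 2 / 2) - lam * s + r s) * e s‖ ≤
      1.0001 * Real.exp (-(0.4061 * S * s ^ 2) - a * s) := by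
    intro s hs
    have h1 : ‖r s‖ ≤ 0.0929 * S * s ^ 2 := by
      refine (h.hr s hs).trans ?_
      have h2 : |s| ^ 3 ≤ 9.8 * s ^ 2 := by
        rw [← sq_abs s, pow_succ]
        nlinarith [sq_nonneg |s|, abs_nonneg s]
      nlinarith [sq_nonneg s]
    have h2 : ‖e s‖ ≤ 1.0001 := by
      have h3 := norm_add_le (e s - 1) 1
      rw [sub_add_cancel, norm_one] at h3
      have := h.he s hs
      linarith
    rw [norm_mul, Complex.norm_exp, Complex.add_re, E4c_re, ← ha, mul_comm]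
    apply mul_le_mul h2 _ (Real.exp_pos _).le (by norm_num)
    apply Real.exp_le_exp.2
    have h3 := Complex.re_le_norm (r s)
    have h4 := h.hSr
    nlinarith [sq_nonneg s]
  -- the pointwise bound
  have hpt : ∀ s : ℝ, |s| ≤ 9.8 →
      ‖exp (-(Ss * s ^ 2 / 2) - lam * s + r s) * e s * (m0 + Ss * s + m s) -
        exp (-(Ss * s ^ 2 / 2) - lam * s) * (m0 + Ss * s)‖ ≤
      1.0001 * (1.026 * (Real.pi * S)) * ((0.0061 * S * |s| ^ 3 + 0.0215 * s ^ 2) *
          Real.exp (-(0.4061 * S * s ^ 2) - a * s)) +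
        (0.0001 * (1.026 * (Real.pi * S)) + 0.0001 * (1.05 * S) / 2) *
          Real.exp (-(0.4061 * S * s ^ 2) - a * s) +
        1.0001 * (1.05 * S) * (|s| * (0.0061 * S * |s| ^ 3 + 0.0215 * s ^ 2) *
          Real.exp (-(0.4061 * S * s ^ 2) - a * s)) +
        (0.0001 * (1.05 * S) / 2 + 1.0001 * (0.0092 * S)) *
          (s ^ 2 * Real.exp (-(0.4061 * S * s ^ 2) - a * s)) := by
    intro s hs
    have p1 := top_pt h hs
    rw [← ha] at p1
    have p2 := hF s hs
    have p3 := hM s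
    have p4 := h.hm s hs
    obtain ⟨q, hqq⟩ : ∃ q, q = Real.exp (-(0.4061 * S * s ^ 2) - a * s) := ⟨_, rfl⟩
    have hq0 : 0 < q := by rw [hqq]; exact Real.exp_pos _
    rw [← hqq] at p1 p2 ⊢
    obtain ⟨J, hJ⟩ : ∃ J, J = 0.0061 * S * |s| ^ 3 + 0.0215 * s ^ 2 := ⟨_, rfl⟩
    have hJ0 : 0 ≤ J := by rw [hJ]; positivity
    rw [← hJ] at p1 ⊢
    have e1 : exp (-(Ss * s ^ 2 / 2) - lam * s + r s) * e s * (m0 + Ss * s + m s) -
        exp (-(Ss * s ^ 2 / 2) - lam * s) * (m0 + Ss * s) =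
        (exp (-(Ss * s ^ 2 / 2) - lam * s + r s) * e s - exp (-(Ss * s ^ 2 / 2) - lam * s)) *
          (m0 + Ss * s) + exp (-(Ss * s ^ 2 / 2) - lam * s + r s) * e s * m s := by ring
    rw [e1]
    have e2 : ‖(exp (-(Ss * s ^ 2 / 2) - lam * s + r s) * e s -
        exp (-(Ss * s ^ 2 / 2) - lam * s)) * (m0 + Ss * s)‖ ≤
        ((1.0001 * J + 0.0001) * q) * (1.026 * (Real.pi * S) + 1.05 * S * |s|) := by
      rw [norm_mul]
      exact mul_le_mul p1 p3 (norm_nonneg _) (by positivity)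
    have e3 : ‖exp (-(Ss * s ^ 2 / 2) - lam * s + r s) * e s * m s‖ ≤
        (1.0001 * q) * (0.0092 * S * s ^ 2) := by
      rw [norm_mul]
      exact mul_le_mul p2 p4 (norm_nonneg _) (by positivity)
    have e4 : |s| ≤ (1 + s ^ 2) / 2 := by
      rw [← sq_abs s]
      nlinarith [sq_nonneg (|s| - 1)]
    have e5 : 0.0001 * q * (1.05 * S) * |s| ≤ 0.0001 * q * (1.05 * S) * ((1 + s ^ 2) / 2) :=
      mul_le_mul_of_nonneg_left e4 (by positivity)
    refine (norm_add_le _ _).trans ((add_le_add e2 e3).trans ?_)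
    have e6 : ((1.0001 * J + 0.0001) * q) * (1.026 * (Real.pi * S) + 1.05 * S * |s|) +
        (1.0001 * q) * (0.0092 * S * s ^ 2) =
        1.0001 * (1.026 * (Real.pi * S)) * (J * q) + 0.0001 * (1.026 * (Real.pi * S)) * q +
        1.0001 * (1.05 * S) * (|s| * J * q) + 0.0001 * q * (1.05 * S) * |s| +
        1.0001 * (0.0092 * S) * (s ^ 2 * q) := by ring
    rw [e6]
    have e7 : 1.0001 * (1.026 * (Real.pi * S)) * (J * q) +
        (0.0001 * (1.026 * (Real.pi * S)) + 0.0001 * (1.05 * S) / 2) * q +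
        1.0001 * (1.05 * S) * (|s| * J * q) +
        (0.0001 * (1.05 * S) / 2 + 1.0001 * (0.0092 * S)) * (s ^ 2 * q) =
        1.0001 * (1.026 * (Real.pi * S)) * (J * q) + 0.0001 * (1.026 * (Real.pi * S)) * q +
        1.0001 * (1.05 * S) * (|s| * J * q) + 0.0001 * q * (1.05 * S) * ((1 + s ^ 2) / 2) +
        1.0001 * (0.0092 * S) * (s ^ 2 * q) := by ring
    rw [e7]
    linarith
  -- the majorant
  have hG := E4c_int i3 i0 i4 i2 (1.0001 * (1.026 * (Real.pi * S)))
    (0.0001 * (1.026 * (Real.pi * S)) + 0.0001 * (1.05 * S) / 2) (1.0001 * (1.05 * S))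
    (0.0001 * (1.05 * S) / 2 + 1.0001 * (0.0092 * S))
  have hGi : ∫ s : ℝ, (1.0001 * (1.026 * (Real.pi * S)) *
        ((0.0061 * S * |s| ^ 3 + 0.0215 * s ^ 2) * Real.exp (-(0.4061 * S * s ^ 2) - a * s)) +
        (0.0001 * (1.026 * (Real.pi * S)) + 0.0001 * (1.05 * S) / 2) *
          Real.exp (-(0.4061 * S * s ^ 2) - a * s) +
        1.0001 * (1.05 * S) * (|s| * (0.0061 * S * |s| ^ 3 + 0.0215 * s ^ 2) *
          Real.exp (-(0.4061 * S * s ^ 2) - a * s)) +
        (0.0001 * (1.05 * S) / 2 + 1.0001 * (0.0092 * S)) *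
          (s ^ 2 * Real.exp (-(0.4061 * S * s ^ 2) - a * s))) ≤ 0.37 * (Real.pi * S) * B := by
    rw [E4c_int4 i3 i0 i4 i2 (1.0001 * (1.026 * (Real.pi * S)))
      (0.0001 * (1.026 * (Real.pi * S)) + 0.0001 * (1.05 * S) / 2) (1.0001 * (1.05 * S))
      (0.0001 * (1.05 * S) / 2 + 1.0001 * (0.0092 * S))]
    have k1 := mul_le_mul_of_nonneg_left j3
      (by positivity : (0 : ℝ) ≤ 1.0001 * (1.026 * (Real.pi * S)))
    have k2 := mul_le_mul_of_nonneg_left jm
      (by positivity : (0 : ℝ) ≤ 0.0001 * (1.026 * (Real.pi * S)) + 0.0001 * (1.05 * S) / 2)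
    have k3 := mul_le_mul_of_nonneg_left j4
      (by positivity : (0 : ℝ) ≤ 1.0001 * (1.05 * S))
    have k4 := mul_le_mul_of_nonneg_left j2
      (by positivity : (0 : ℝ) ≤ 0.0001 * (1.05 * S) / 2 + 1.0001 * (0.0092 * S))
    have k5 : S * B * 3.14 ≤ Real.pi * S * B := by
      have : 0 ≤ S * B := by positivity
      nlinarith
    nlinarith
  have hin : IntegrableOn (fun s : ℝ => exp (-(Ss * s ^ 2 / 2) - lam * s + r s) * e s *
      (m0 + Ss * s + m s)) (Set.Ioc s1 s2) := by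
    have h1 : IntegrableOn (fun s : ℝ => exp (-(Ss * s ^ 2 / 2) - lam * s + r s) * e s *
        (m0 + Ss * s + m s)) (Set.Icc (-9.8) 9.8) := by
      apply ContinuousOn.integrableOn_Icc
      have cr := h.cr
      have ce := h.ce
      have cm := h.cm
      fun_prop
    exact h1.mono_set fun s hs => ⟨h.h1.1.trans hs.1.le, hs.2.trans h.h2.2⟩
  have hle : s1 ≤ s2 := by linarith [h.h1.2, h.h2.1]
  rw [intervalIntegral.integral_of_le hle, ← hI0,
    ← integral_add_compl (measurableSet_Ioc (a := s1) (b := s2)) hEM, ← sub_sub,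
    ← integral_sub hin hEM.integrableOn]
  refine (norm_sub_le _ _).trans ?_
  have hfirst : ‖∫ s in Set.Ioc s1 s2, (exp (-(Ss * s ^ 2 / 2) - lam * s + r s) * e s *
      (m0 + Ss * s + m s) - exp (-(Ss * s ^ 2 / 2) - lam * s) * (m0 + Ss * s))‖ ≤
      0.37 * (Real.pi * S) * B := by
    refine (norm_integral_le_of_norm_le hG.integrableOn (g := fun s : ℝ => _) ?_).trans
      ((setIntegral_le_integral hG (Filter.Eventually.of_forall fun s => ?_)).trans hGi)
    · refine (ae_restrict_iff' measurableSet_Ioc).2 (Filter.Eventually.of_forall fun s hs => ?_)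
      apply hpt
      rw [abs_le]
      exact ⟨h.h1.1.trans hs.1.le, hs.2.trans h.h2.2⟩
    · change 0 ≤ _
      have hS1 := hS0.le
      have := Real.exp_pos (-(0.4061 * S * s ^ 2) - a * s)
      positivity
  have htail : Integrable fun s : ℝ => (1 + |s|) * Real.exp (-(0.499 * S * s ^ 2) - a * s) := by
    have hk' : 0 < 0.998 * S := by positivity
    have h1 := (gl_integrable (0.998 * S) a hk' 0).add (gl_integrable (0.998 * S) a hk' 1).norm
    refine h1.congr (Filter.Eventually.of_forall fun s => ?_)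
    change s ^ 0 * Real.exp (-(0.998 * S / 2 * s ^ 2) - a * s) +
      ‖s ^ 1 * Real.exp (-(0.998 * S / 2 * s ^ 2) - a * s)‖ = _
    have h2 : -(0.998 * S / 2 * s ^ 2) - a * s = -(0.499 * S * s ^ 2) - a * s := by ring
    rw [norm_mul, pow_zero, pow_one, Real.norm_eq_abs, Real.norm_of_nonneg (Real.exp_pos _).le, h2]
    ring
  have hsecond : ‖∫ s in (Set.Ioc s1 s2)ᶜ, exp (-(Ss * s ^ 2 / 2) - lam * s) * (m0 + Ss * s)‖ ≤
      0.0168 * (Real.pi * S) * B := by
    have g1 : ‖∫ s in (Set.Ioc s1 s2)ᶜ, exp (-(Ss * s ^ 2 / 2) - lam * s) * (m0 + Ss * s)‖ ≤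
        ∫ s in (Set.Ioc s1 s2)ᶜ, 1.05 * (Real.pi * S) *
          ((1 + |s|) * Real.exp (-(0.499 * S * s ^ 2) - a * s)) := by
      apply norm_integral_le_of_norm_le (htail.const_mul _).integrableOn
      refine Filter.Eventually.of_forall fun s => ?_
      rw [norm_mul, mul_comm]
      have g2 : 1.026 * (Real.pi * S) + 1.05 * S * |s| ≤ 1.05 * (Real.pi * S) * (1 + |s|) := by
        have g3 : 0 ≤ S * |s| := by positivity
        nlinarith
      calc ‖m0 + Ss * s‖ * ‖exp (-(Ss * s ^ 2 / 2) - lam * s)‖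
          ≤ (1.05 * (Real.pi * S) * (1 + |s|)) * Real.exp (-(0.499 * S * s ^ 2) - a * s) :=
            mul_le_mul ((hM s).trans g2) (hE s) (norm_nonneg _) (by positivity)
        _ = 1.05 * (Real.pi * S) *
          ((1 + |s|) * Real.exp (-(0.499 * S * s ^ 2) - a * s)) := by ring
    refine g1.trans ?_
    rw [integral_const_mul]
    have g2 : ∫ s in (Set.Ioc s1 s2)ᶜ, (1 + |s|) * Real.exp (-(0.499 * S * s ^ 2) - a * s) ≤
        ∫ s in {s : ℝ | 8 ≤ |s|}, (1 + |s|) * Real.exp (-(0.499 * S * s ^ 2) - a * s) := by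
      apply setIntegral_mono_set htail.integrableOn
      · exact Filter.Eventually.of_forall fun s => by
          have := Real.exp_pos (-(0.499 * S * s ^ 2) - a * s)
          change 0 ≤ _
          positivity
      · apply Filter.Eventually.of_forall
        intro s hs
        change 8 ≤ |s|
        have hs' : ¬ (s1 < s ∧ s ≤ s2) := hs
        by_cases h1 : s1 < s
        · have h2 : s2 < s := by
            by_contra h3
            exact hs' ⟨h1, not_lt.1 h3⟩
          exact (h.h2.1.trans h2.le).trans (le_abs_self s)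
        · have h2 : 8 ≤ -s := by
            have := h.h1.2
            linarith [not_lt.1 h1]
          exact h2.trans (neg_le_abs s)
    have g3 := g2.trans jt
    have g4 := mul_le_mul_of_nonneg_left g3 (by positivity : (0 : ℝ) ≤ 1.05 * (Real.pi * S))
    refine g4.trans (le_of_eq ?_)
    ring
  have hfin : 0.37 * (Real.pi * S) * B + 0.0168 * (Real.pi * S) * B ≤
      0.45 * (Real.pi * S) * ‖I0 Ss lam‖ := by
    have g1 : 0 ≤ Real.pi * S := by positivity
    nlinarith [mul_le_mul_of_nonneg_left hBI g1, mul_nonneg g1 hB0]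
  exact (add_le_add hfirst hsecond).trans hfin

end Pool.Agent.LP
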