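import Pool.Agent.Lib.MP_f91407_an.LP.H6
import Pool.Agent.Lib.MP_f91407_an.Mg.G031

set_option autoImplicit false

/-! # H7: the final statement -/

namespace Pool.Agent.LP

open Pool.Agent.Lib.MP_f91407_an NNReal

theorem final :
    (∀ F : ℝ≥0 → ℝ≥0, Preserves F →
      ∃ c p : ℝ, 0 < c ∧ (p = 1 ∨ 2 ≤ p) ∧ ∀ x : ℝ≥0, ((F x : ℝ≥0) : ℝ) = c * (x : ℝ) ^ p) ∧
    ∀ c p : ℝ, 0 < c → ((∃ k : ℕ, 1 ≤ k ∧ p = k) ∨ 64 ≤ p) →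
      ∀ F : ℝ≥0 → ℝ≥0, (∀ x : ℝ≥0, ((F x : ℝ≥0) : ℝ) = c * (x : ℝ) ^ p) → Preserves F :=
  ⟨fun _ hF => hF.eq_power, fun _ _ hc hp _ hF => preserves_good hc hp hF⟩

end Pool.Agent.LP
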